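import Mathlib
import Pool.Agent.KDT.StmtsP

set_option autoImplicit false

/-! Row IRD of the squad KDT: relations of a generic point. -/

namespace Pool.Agent.KDT.Z.H95

open Polynomial Pool.Agent.KDT.Z

theorem mem_range_of_root {k U : Type} [Field k] [Field U] [Algebra k U] [IsAlgClosed k] {s : U}
    {R : k[X]} (hR : R ≠ 0) (h : aeval s R = 0) : s ∈ (algebraMap k U).range := by
  have h1 : IsAlgebraic k s := ⟨R, hR, h⟩
  have h2 : IsIntegral k s := h1.isIntegral
  exact minpoly.mem_range_of_degree_eq_one k s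
    (IsAlgClosed.degree_eq_one_of_irreducible k (minpoly.irreducible h2))

theorem factor {k U : Type} [Field k] [Field U] [Algebra k U] (s p : U) :
    ∀ Φ0 : MvPolynomial (Fin 2) k, Φ0 ≠ 0 → Zr Φ0 s p →
      ∃ Φ : MvPolynomial (Fin 2) k, Irreducible Φ ∧ Φ ∣ Φ0 ∧ Zr Φ s p := by
  intro Φ0
  induction Φ0 using WfDvdMonoid.induction_on_irreducible with
  | zero =>
    intro h _
    exact absurd rfl h
  | unit u hu =>
    intro _ h
    exfalso
    have h1 : IsUnit (MvPolynomial.aeval (R := k) ![s, p] u) := hu.map _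
    unfold Zr at h
    rw [h] at h1
    exact not_isUnit_zero h1
  | mul a i ha hi ih =>
    intro _ h
    unfold Zr at h
    rw [map_mul, mul_eq_zero] at h
    rcases h with h | h
    · exact ⟨i, hi, dvd_mul_right i a, h⟩
    · obtain ⟨Φ, h1, h2, h3⟩ := ih ha h
      exact ⟨Φ, h1, h2.trans (dvd_mul_left a i), h3⟩

theorem ird (eli : EliStatement) : IrdStatement := by
  refine ⟨?_, ?_⟩
  · intro k U _ _ _ _ s p Φ G hΦ hz hn hG
    by_contra hd
    obtain ⟨R0, R1, h0, h1, -, -, h2⟩ := eli (max Φ.totalDegree G.totalDegree) k Φ G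
      (le_max_left _ _) (le_max_right _ _) hΦ hd
    obtain ⟨h3, h4⟩ := h2 U s p hz hG
    exact hn ⟨mem_range_of_root h0 h3, mem_range_of_root h1 h4⟩
  · intro k U _ _ _ s p Φ0 hne hz
    obtain ⟨Φ, h1, h2, h3⟩ := factor s p Φ0 hne hz
    refine ⟨Φ, h1, h2, ?_, h3⟩
    obtain ⟨Ψ, rfl⟩ := h2
    have h4 : Φ ≠ 0 := fun h => hne (by rw [h, zero_mul])
    have h5 : Ψ ≠ 0 := fun h => hne (by rw [h, mul_zero])
    rw [MvPolynomial.totalDegree_mul_of_isDomain h4 h5]
    exact Nat.le_add_right _ _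

end Pool.Agent.KDT.Z.H95
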